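import Pool.Agent.H883.ZS.Sub3

set_option autoImplicit false

/-!
# Bounded height in sectors of products of lines

Let `V` be the product of `c` lines `a_i x_i + b_i y_i = 1` in the torus `G_m^{2c}`, with nonzero
coefficients in a number field `K0`.  So `V` has dimension `c`; for `c` at least `2` every point of
`V` lies on an anomalous subvariety, the open anomalous locus of `V` is empty and the known bounded
height theorem is empty for `V`.

We show that the height is bounded, off a proper closed subset, on the points of `V` in the subgroups of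
codimension at least `c = dim V` (and in cones about such subgroups) in sectors of `V`, that is, where the
heights of the coordinates `x_i` are comparable. More generally, for every `r`: on the points of `V` in
the cones about the subgroups of dimension at most `r`, in a sector, the height is bounded off a closed
subset of dimension less than `r`. (`r = c` is the first case.)

More precisely the condition is needed only on subsets: for each choice `e` of `r` of the `c` coordinates
there is a fixed polynomial `G_e` such that, whenever the chosen coordinates of such a point are in the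
sector, `G_e` vanishes at them or their heights are bounded, whatever the heights of the other
coordinates are; and the common zero set of these polynomials has dimension less than `r`.
-/

namespace Pool.Agent.Results.MP_c95b3b_ag.SectorHeight

open NumberField

/-- the monomial `w^e`, the product of the `w_l ^ e_l` -/
def mon {F κ : Type} [Field F] [Fintype κ] (w : κ → F) (e : κ → ℤ) : F := ∏ l, w l ^ e l

/-- The point `w` of the torus satisfies `m` independent multiplicative relations `w^r = 1`; in
other words it lies in an algebraic subgroup of codimension `m` (equivalently at least `m`). -/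
def Codim {F κ : Type} [Field F] [Fintype κ] (w : κ → F) (m : ℕ) : Prop :=
  ∃ R : Fin m → κ → ℤ, LinearIndependent ℤ R ∧ ∀ k, mon w (R k) = 1

/-- the absolute logarithmic Weil height of an element of a number field -/
noncomputable def ht {K : Type} [Field K] [NumberField K] (x : K) : ℝ :=
  Height.logHeight₁ x / Module.finrank ℚ K

/-- `P = (x, y)` is a point over `K` of the product `V` of the lines `a_i x_i + b_i y_i = 1` in
the torus of dimension `2 c`; `x_i = P (Sum.inl i)`, `y_i = P (Sum.inr i)`. -/
def OnV {K0 : Type} [Field K0] {c : ℕ} (a b : Fin c → K0) {K : Type} [Field K] [Algebra K0 K]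
    (P : Fin c ⊕ Fin c → K) : Prop :=
  (∀ r, P r ≠ 0) ∧
    ∀ i, algebraMap K0 K (a i) * P (Sum.inl i) + algebraMap K0 K (b i) * P (Sum.inr i) = 1

/-- `P = g u` with `g` in an algebraic subgroup of dimension at most `r`, where the two
coordinates of `u` on the `i`-th line have height at most `ε (1 + h(x_i))` -/
def InCone {c : ℕ} {K : Type} [Field K] [NumberField K] (P : Fin c ⊕ Fin c → K) (r : ℕ)
    (ε : ℝ) : Prop :=
  ∃ g u : Fin c ⊕ Fin c → K, (∀ s, P s = g s * u s) ∧ (∃ m, Codim g m ∧ 2 * c ≤ m + r) ∧
    ∀ i, ht (u (Sum.inl i)) ≤ ε * (1 + ht (P (Sum.inl i))) ∧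
      ht (u (Sum.inr i)) ≤ ε * (1 + ht (P (Sum.inl i)))

/-- the heights of the coordinates of `x` are comparable, up to the factor `Λ` -/
def InSector {k : ℕ} {K : Type} [Field K] [NumberField K] (x : Fin k → K) (Λ : ℝ) : Prop :=
  ∀ i j, ht (x j) ≤ Λ * (1 + ht (x i))

/-- The common zero set of the polynomials `G_e(x_{e(1)}, …, x_{e(k)})`, `e` running through the
injections of `{1, …, k}` into `{1, …, c}`, in the affine space of dimension `c` has dimension less
than `k`, over every extension field `L` of `K0`: the transcendence degree of the coordinate ring of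
every irreducible subvariety of the zero set is less than `k`. -/
def SmallDim {K0 : Type} [Field K0] {c k : ℕ} (G : (Fin k ↪ Fin c) → MvPolynomial (Fin k) K0) :
    Prop :=
  ∀ (L : Type) [Field L] [Algebra K0 L] (I : Ideal (MvPolynomial (Fin c) L)), I.IsPrime →
    (∀ e : Fin k ↪ Fin c,
      MvPolynomial.rename e (MvPolynomial.map (algebraMap K0 L) (G e)) ∈ I) →
    Algebra.trdeg L (MvPolynomial (Fin c) L ⧸ I) < k

theorem result (K0 : Type) [Field K0] [NumberField K0] (c r : ℕ) (a b : Fin c → K0)
    (ha : ∀ i, a i ≠ 0) (hb : ∀ i, b i ≠ 0) (Λ : ℝ) :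
    ∃ G : (Fin r ↪ Fin c) → MvPolynomial (Fin r) K0, SmallDim G ∧ ∃ ε B : ℝ, 0 < ε ∧
      ∀ (K : Type) [Field K] [NumberField K] [Algebra K0 K] (P : Fin c ⊕ Fin c → K),
        OnV a b P → InCone P r ε →
        ∀ e : Fin r ↪ Fin c, InSector (fun j => P (Sum.inl (e j))) Λ →
          MvPolynomial.aeval (fun j => P (Sum.inl (e j))) (G e) = 0 ∨
            ∀ j, ht (P (Sum.inl (e j))) ≤ B ∧ ht (P (Sum.inr (e j))) ≤ B := by
  obtain ⟨G, hG, ε, B, hε, h⟩ := Pool.Agent.H883.ZS.sector_all K0 c r a b ha hb Λ
  refine ⟨G, ?_, ε, B, hε, ?_⟩
  · intro L _ _ I hI hmem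
    have : IsDomain (MvPolynomial (Fin c) L ⧸ I) := Ideal.Quotient.isDomain I
    obtain ⟨d, hd⟩ := Cardinal.lt_aleph0.1
      (_root_.trdeg_lt_aleph0_of_finiteType (R := L) (S := MvPolynomial (Fin c) L ⧸ I))
    rw [hd]
    exact_mod_cast Pool.Agent.H883.ZS.dim_lt I hI G hG hmem d hd
  · intro K _ _ _ P hP hnear e hsec
    obtain ⟨g, u, hge, hcod, hu⟩ := hnear
    exact h K P g u hP.1 hP.2 hge hcod hu e hsec

end Pool.Agent.Results.MP_c95b3b_ag.SectorHeight
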