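import Pool.Agent.H883.ZS.Sub

set_option autoImplicit false

/-!
# Points of products of lines in subgroups of codimension `dim V`: two coordinates have comparable heights

Let `V` be the product of `c` lines `a_i x_i + b_i y_i = 1` in the torus `G_m^{2c}`, with nonzero
coefficients in a number field `K0`.  For `c` at least `2` every point of `V` lies on an anomalous
subvariety, and the heights of the points of `V` in the subgroups of codimension `c = dim V` are
unbounded on Zariski dense sets of points.

We show, for all `c` and `r ≥ 1`: there are a positive `ε` and a bound `B` such that for every point `P` of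
`V` which is in the cone of aperture `ε` about an algebraic subgroup of dimension at most `r` (any
subgroup) every set `S` of at least `r` coordinates has a member `x_i` of height less than `B`, or two
members `x_i, x_j` whose heights have a quotient less than `B`. For `r = c` and the set of all
coordinates this is about the subgroups of codimension `c = dim V`. There is no exceptional subset.  For
`c = r = 1` this is the bounded height theorem for lines.
-/

namespace Pool.Agent.Results.MP_c95b3b_ag.TwoComparableHeights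

open NumberField

/-- the monomial `w^e`, the product of the `w_l ^ e_l` -/
def mon {F κ : Type} [Field F] [Fintype κ] (w : κ → F) (e : κ → ℤ) : F := ∏ l, w l ^ e l

/-- The point `w` of the torus satisfies `m` independent multiplicative relations `w^r = 1`; in
other words it lies in an algebraic subgroup of codimension `m` (equivalently at least `m`). -/
def Codim {F κ : Type} [Field F] [Fintype κ] (w : κ → F) (m : ℕ) : Prop :=
  ∃ R : Fin m → κ → ℤ, LinearIndependent ℤ R ∧ ∀ k, mon w (R k) = 1

/-- the absolute logarithmic Weil height of an element of a number field -/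
noncomputable def ht {K : Type} [Field K] [NumberField K] (x : K) : ℝ :=
  Height.logHeight₁ x / Module.finrank ℚ K

/-- `P = (x, y)` is a point over `K` of the product `V` of the lines `a_i x_i + b_i y_i = 1` in
the torus of dimension `2 c`; `x_i = P (Sum.inl i)`, `y_i = P (Sum.inr i)`. -/
def OnV {K0 : Type} [Field K0] {c : ℕ} (a b : Fin c → K0) {K : Type} [Field K] [Algebra K0 K]
    (P : Fin c ⊕ Fin c → K) : Prop :=
  (∀ r, P r ≠ 0) ∧
    ∀ i, algebraMap K0 K (a i) * P (Sum.inl i) + algebraMap K0 K (b i) * P (Sum.inr i) = 1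

/-- `P = g u` with `g` in an algebraic subgroup of dimension at most `r`, where the
coordinates `u_s` with `s` on the `i`-th line have height at most `ε h(x_i)` -/
def InCone {c : ℕ} {K : Type} [Field K] [NumberField K] (P : Fin c ⊕ Fin c → K) (r : ℕ)
    (ε : ℝ) : Prop :=
  ∃ g u : Fin c ⊕ Fin c → K, (∀ s, P s = g s * u s) ∧ (∃ m, Codim g m ∧ 2 * c ≤ m + r) ∧
    ∀ i, ht (u (Sum.inl i)) ≤ ε * ht (P (Sum.inl i)) ∧ ht (u (Sum.inr i)) ≤ ε * ht (P (Sum.inl i))

theorem result (K0 : Type) [Field K0] [NumberField K0] (c r : ℕ) (hr : 0 < r) (a b : Fin c → K0)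
    (ha : ∀ i, a i ≠ 0) (hb : ∀ i, b i ≠ 0) :
    ∃ ε B : ℝ, 0 < ε ∧
      ∀ (K : Type) [Field K] [NumberField K] [Algebra K0 K] (P : Fin c ⊕ Fin c → K),
        OnV a b P → InCone P r ε →
        ∀ S : Finset (Fin c), r ≤ S.card →
        (∃ i ∈ S, ht (P (Sum.inl i)) < B) ∨
          ∃ i ∈ S, ∃ j ∈ S, i ≠ j ∧ ht (P (Sum.inl i)) < B * ht (P (Sum.inl j)) ∧
            ht (P (Sum.inl j)) < B * ht (P (Sum.inl i)) := by
  classical
  have hnn : ∀ {K : Type} [Field K] [NumberField K] (x : K), 0 ≤ Pool.Agent.H883.ZQ.ht x := by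
    intro K _ _ x
    unfold Pool.Agent.H883.ZQ.ht
    exact div_nonneg (Height.zero_le_logHeight₁ x) (Nat.cast_nonneg _)
  have H := fun f : Fin r ↪ Fin c => Pool.Agent.H883.ZR.S_LB_holds K0 r
    (fun j => a (f j)) (fun j => b (f j)) hr (fun j => ha (f j)) (fun j => hb (f j))
  choose ε B hε H using H
  obtain ⟨ε0, hε0, hle⟩ := Pool.Agent.H883.ZS.exists_le_fin ε hε
  obtain ⟨B0, hB0⟩ := Pool.Agent.H883.ZS.exists_ge_fin B
  refine ⟨ε0, B0, hε0, ?_⟩
  intro K _ _ _ P hP hnear S hS
  obtain ⟨g, u, hgu, ⟨m, hcod, hm⟩, hu⟩ := hnear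
  by_contra hcon
  push Not at hcon
  obtain ⟨h1, h2⟩ := hcon
  obtain ⟨T, hTS, hT⟩ := Finset.exists_subset_card_eq hS
  let f0 : Fin r ↪o Fin c := T.orderEmbOfFin hT
  let f : Fin r ↪ Fin c := f0.toEmbedding
  have hf : ∀ j, f j ∈ S := fun j => hTS (Finset.orderEmbOfFin_mem T hT j)
  refine H f K (P ∘ Sum.map f f) (g ∘ Sum.map f f) (u ∘ Sum.map f f) (fun s => hP.1 _)
    (fun i => hP.2 _) (fun s => hgu _)
    (Pool.Agent.H883.ZR.INT.codim_sub g f f.injective hcod r (by omega))
    (fun s => ?_) (fun i => (hB0 f).trans (h1 (f i) (hf i))) ?_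
  · rcases s with i | i
    · exact (hu (f i)).1.trans (mul_le_mul_of_nonneg_right (hle f) (hnn _))
    · exact (hu (f i)).2.trans (mul_le_mul_of_nonneg_right (hle f) (hnn _))
  · intro i j hij
    have hne : f i ≠ f j := fun h => hij (f.injective h)
    by_cases h3 : ht (P (Sum.inl (f i))) < B0 * ht (P (Sum.inl (f j)))
    · exact Or.inl ((mul_le_mul_of_nonneg_right (hB0 f) (hnn _)).trans
        (h2 (f i) (hf i) (f j) (hf j) hne h3))
    · exact Or.inr ((mul_le_mul_of_nonneg_right (hB0 f) (hnn _)).trans (not_lt.1 h3))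

end Pool.Agent.Results.MP_c95b3b_ag.TwoComparableHeights
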